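import Pool.Agent.CMG.Stmts

/-!
# Squad CMG (MP_005a41_gt), row BRO: the Cantor set (Brouwer)
-/

set_option autoImplicit false

namespace Pool.Agent.CMG.H43

open Set Topology
open Pool.Agent.LSG Pool.Agent.CMG

section cell

variable {X : Type} [MetricSpace X]

/-- A labelled partition of `c` into exactly `m` small pieces. -/
structure Par (c : Set X) (m : ℕ) (ε : ℝ) (f : X → ℕ) : Prop where
  cont : Continuous f
  lt : ∀ x, f x < m
  onto : ∀ j, j < m → ∃ x ∈ c, f x = j
  small : ∀ x ∈ c, ∀ x' ∈ c, f x = f x' → dist x x' < ε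

theorem cont_ite {W : Set X} (hW : IsClopen W) [DecidablePred (· ∈ W)] {f g : X → ℕ}
    (hf : Continuous f) (hg : Continuous g) : Continuous (fun x => if x ∈ W then f x else g x) := by
  have h := Continuous.piecewise (s := W) (f := f) (g := g) (by
    intro a ha
    rw [hW.frontier_eq] at ha
    exact absurd ha (Set.notMem_empty a)) hf hg
  exact h

/-- Some partition. -/
theorem par_exists (ε : ℝ) (S : Finset (Set X))
    (hS : ∀ V ∈ S, IsClopen V ∧ ∀ x ∈ V, ∀ x' ∈ V, dist x x' < ε) :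
    ∀ c : Set X, c.Nonempty → (∀ x ∈ c, ∃ V ∈ S, x ∈ V) →
      ∃ (m : ℕ) (f : X → ℕ), 1 ≤ m ∧ Par c m ε f := by
  classical
  induction S using Finset.induction_on with
  | empty =>
    intro c hc h
    obtain ⟨x, hx⟩ := hc
    obtain ⟨V, hV, -⟩ := h x hx
    exact absurd hV (Finset.notMem_empty V)
  | insert V S hVS ih =>
    intro c hc h
    have hV := hS V (Finset.mem_insert_self V S)
    have ih' := ih fun W hW => hS W (Finset.mem_insert_of_mem hW)
    by_cases h2 : (c \ V).Nonempty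
    · obtain ⟨m, f, hm, hf⟩ := ih' (c \ V) h2 (by
        intro x hx
        obtain ⟨W, hW, hxW⟩ := h x hx.1
        rcases Finset.mem_insert.mp hW with h3 | h3
        · exact absurd (h3 ▸ hxW) hx.2
        · exact ⟨W, h3, hxW⟩)
      by_cases h1 : (c ∩ V).Nonempty
      · refine ⟨m + 1, fun x => if x ∈ V then m else f x, by omega, ?_, ?_, ?_, ?_⟩
        · exact cont_ite hV.1 continuous_const hf.cont
        · intro x
          by_cases hx : x ∈ V
          · simp [hx]
          · simp only [hx, if_false]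
            have := hf.lt x
            omega
        · intro j hj
          by_cases hjm : j = m
          · obtain ⟨x, hx⟩ := h1
            refine ⟨x, hx.1, ?_⟩
            rw [if_pos hx.2, hjm]
          · obtain ⟨x, hx, hxj⟩ := hf.onto j (by omega)
            refine ⟨x, hx.1, ?_⟩
            rw [if_neg hx.2, hxj]
        · intro x hx x' hx' hxx
          by_cases h3 : x ∈ V
          · by_cases h4 : x' ∈ V
            · exact hV.2 x h3 x' h4
            · rw [if_pos h3, if_neg h4] at hxx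
              have := hf.lt x'
              omega
          · by_cases h4 : x' ∈ V
            · rw [if_neg h3, if_pos h4] at hxx
              have := hf.lt x
              omega
            · rw [if_neg h3, if_neg h4] at hxx
              exact hf.small x ⟨hx, h3⟩ x' ⟨hx', h4⟩ hxx
      · have hcV : ∀ x ∈ c, x ∉ V := fun x hx hxV => h1 ⟨x, hx, hxV⟩
        refine ⟨m, f, hm, hf.cont, hf.lt, ?_, ?_⟩
        · intro j hj
          obtain ⟨x, hx, hxj⟩ := hf.onto j hj
          exact ⟨x, hx.1, hxj⟩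
        · intro x hx x' hx'
          exact hf.small x ⟨hx, hcV x hx⟩ x' ⟨hx', hcV x' hx'⟩
    · have hcV : ∀ x ∈ c, x ∈ V := by
        intro x hx
        by_contra hxV
        exact h2 ⟨x, hx, hxV⟩
      refine ⟨1, fun _ => 0, le_rfl, continuous_const, fun _ => by norm_num, ?_, ?_⟩
      · intro j hj
        obtain ⟨x, hx⟩ := hc
        exact ⟨x, hx, by omega⟩
      · intro x hx x' hx' _
        exact hV.2 x (hcV x hx) x' (hcV x' hx')

variable [CompactSpace X] [TotallyDisconnectedSpace X]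

/-- Splitting one piece. -/
theorem par_succ (hX : ∀ x : X, ¬ IsOpen ({x} : Set X)) {c : Set X} (hc : IsClopen c) {m : ℕ}
    {ε : ℝ} {f : X → ℕ} (hm : 1 ≤ m) (hf : Par c m ε f) : ∃ f' : X → ℕ, Par c (m + 1) ε f' := by
  classical
  obtain ⟨x0, hx0, hfx0⟩ := hf.onto 0 (by omega)
  have hop : IsOpen (c ∩ f ⁻¹' {0}) := hc.isOpen.inter ((isOpen_discrete _).preimage hf.cont)
  obtain ⟨x1, hx1, hx1c⟩ : ∃ x1 ∈ c ∩ f ⁻¹' {0}, x1 ≠ x0 := by
    by_contra hcon
    push Not at hcon
    apply hX x0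
    have : ({x0} : Set X) = c ∩ f ⁻¹' {0} := by
      ext z
      constructor
      · intro hz
        have hz' : z = x0 := hz
        rw [hz']
        exact ⟨hx0, hfx0⟩
      · intro hz
        exact hcon z hz
    rw [this]
    exact hop
  obtain ⟨U, hU, hx0U, hUs⟩ := compact_exists_isClopen_in_isOpen (x := x0)
    (isOpen_compl_singleton (x := x1)) (by
      intro h
      exact hx1c (by
        have : x0 = x1 := h
        exact this.symm))
  have hx1U : x1 ∉ U := fun h => hUs h rfl
  have hW : IsClopen (f ⁻¹' {0} ∩ Uᶜ) := by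
    refine IsClopen.inter ?_ hU.compl
    exact (isClopen_discrete _).preimage hf.cont
  refine ⟨fun x => if x ∈ f ⁻¹' {0} ∩ Uᶜ then m else f x, cont_ite hW continuous_const hf.cont,
    ?_, ?_, ?_⟩
  · intro x
    by_cases hx : x ∈ f ⁻¹' {0} ∩ Uᶜ
    · simp only [hx, if_true]
      omega
    · simp only [hx, if_false]
      have := hf.lt x
      omega
  · intro j hj
    by_cases hjm : j = m
    · refine ⟨x1, hx1.1, ?_⟩
      rw [if_pos ⟨hx1.2, hx1U⟩, hjm]
    · by_cases hj0 : j = 0
      · refine ⟨x0, hx0, ?_⟩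
        rw [if_neg (fun h => h.2 hx0U), hfx0, hj0]
      · obtain ⟨x, hx, hxj⟩ := hf.onto j (by omega)
        refine ⟨x, hx, ?_⟩
        rw [if_neg, hxj]
        intro h
        have h0 : f x = 0 := h.1
        omega
  · intro x hx x' hx' hxx
    by_cases h3 : x ∈ f ⁻¹' {0} ∩ Uᶜ
    · by_cases h4 : x' ∈ f ⁻¹' {0} ∩ Uᶜ
      · have e1 : f x = 0 := h3.1
        have e2 : f x' = 0 := h4.1
        exact hf.small x hx x' hx' (by rw [e1, e2])
      · rw [if_pos h3, if_neg h4] at hxx
        have := hf.lt x'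
        omega
    · by_cases h4 : x' ∈ f ⁻¹' {0} ∩ Uᶜ
      · rw [if_neg h3, if_pos h4] at hxx
        have := hf.lt x
        omega
      · rw [if_neg h3, if_neg h4] at hxx
        exact hf.small x hx x' hx' hxx

/-- Partitions into any large number of pieces. -/
theorem par_ge (hX : ∀ x : X, ¬ IsOpen ({x} : Set X)) {c : Set X} (hc : IsClopen c)
    (hne : c.Nonempty) {ε : ℝ} (hε : 0 < ε) :
    ∃ m : ℕ, ∀ M, m ≤ M → ∃ f : X → ℕ, Par c M ε f := by
  classical
  have hloc : ∀ x : X, ∃ V : Set X, IsClopen V ∧ x ∈ V ∧ ∀ y ∈ V, ∀ y' ∈ V, dist y y' < ε := by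
    intro x
    obtain ⟨V, hV, hxV, hVs⟩ := compact_exists_isClopen_in_isOpen (x := x)
      (Metric.isOpen_ball (x := x) (ε := ε / 2)) (Metric.mem_ball_self (half_pos hε))
    refine ⟨V, hV, hxV, fun y hy y' hy' => ?_⟩
    have h1 := Metric.mem_ball.mp (hVs hy)
    have h2 := Metric.mem_ball'.mp (hVs hy')
    have h3 := dist_triangle y x y'
    linarith
  choose V hV hxV hVs using hloc
  obtain ⟨t, ht⟩ := isCompact_univ.elim_finite_subcover (U := V) (fun x => (hV x).isOpen)
    (fun x _ => Set.mem_iUnion.mpr ⟨x, hxV x⟩)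
  obtain ⟨m, f, hm, hf⟩ := par_exists ε (t.image V) (by
    intro W hW
    obtain ⟨x, -, rfl⟩ := Finset.mem_image.mp hW
    exact ⟨hV x, hVs x⟩) c hne (by
    intro x _
    obtain ⟨i, hi⟩ := Set.mem_iUnion.mp (ht (Set.mem_univ x))
    obtain ⟨hit, hxi⟩ := Set.mem_iUnion.mp hi
    exact ⟨V i, Finset.mem_image_of_mem V hit, hxi⟩)
  refine ⟨m, fun M hM => ?_⟩
  induction M, hM using Nat.le_induction with
  | base => exact ⟨f, hf⟩
  | succ M hM ih =>
    obtain ⟨g, hg⟩ := ih
    exact par_succ hX hc (le_trans hm hM) hg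

/-- The step of the recursion. -/
theorem step (hX : ∀ x : X, ¬ IsOpen ({x} : Set X)) (K : ℕ) (f : X → ℕ) (hf : Continuous f)
    (hlt : ∀ x, f x < 2 ^ K) (honto : ∀ j, j < 2 ^ K → ∃ x, f x = j) (ε : ℝ) (hε : 0 < ε) :
    ∃ (K' : ℕ) (f' : X → ℕ), K < K' ∧ Continuous f' ∧ (∀ x, f' x < 2 ^ K') ∧
      (∀ j, j < 2 ^ K' → ∃ x, f' x = j) ∧ (∀ x, f' x % 2 ^ K = f x) ∧
      ∀ x x', f' x = f' x' → dist x x' < ε := by
  classical
  have h1 : ∀ j : ℕ, ∃ m : ℕ, j < 2 ^ K → ∀ M, m ≤ M → ∃ g : X → ℕ, Par (f ⁻¹' {j}) M ε g := by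
    intro j
    by_cases hj : j < 2 ^ K
    · obtain ⟨x, hx⟩ := honto j hj
      obtain ⟨m, hm⟩ := par_ge hX ((isClopen_discrete ({j} : Set ℕ)).preimage hf) ⟨x, hx⟩ hε
      exact ⟨m, fun _ => hm⟩
    · exact ⟨0, fun h => absurd h hj⟩
  choose m hm using h1
  set k : ℕ := (∑ j ∈ Finset.range (2 ^ K), m j) + 1 with hk
  have hkm : ∀ j, j < 2 ^ K → m j ≤ 2 ^ k := by
    intro j hj
    have h2 : m j ≤ ∑ j ∈ Finset.range (2 ^ K), m j :=
      Finset.single_le_sum (f := m) (fun _ _ => Nat.zero_le _) (Finset.mem_range.mpr hj)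
    have h3 : k < 2 ^ k := Nat.lt_two_pow_self
    omega
  have h4 : ∀ j : ℕ, ∃ g : X → ℕ, Continuous g ∧ (j < 2 ^ K → Par (f ⁻¹' {j}) (2 ^ k) ε g) := by
    intro j
    by_cases hj : j < 2 ^ K
    · obtain ⟨g, hg⟩ := hm j hj (2 ^ k) (hkm j hj)
      exact ⟨g, hg.cont, fun _ => hg⟩
    · exact ⟨fun _ => 0, continuous_const, fun h => absurd h hj⟩
  choose g hgc hg using h4
  have hgg : ∀ x, Par (f ⁻¹' {f x}) (2 ^ k) ε (g (f x)) := fun x => hg (f x) (hlt x)
  have hcont : Continuous fun x => g (f x) x := by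
    have h5 : Continuous fun p : ℕ × X => g p.1 p.2 := by
      rw [continuous_prod_of_discrete_left]
      exact hgc
    exact h5.comp (hf.prodMk continuous_id)
  have hpos : 0 < 2 ^ K := Nat.two_pow_pos K
  have hmod : ∀ x, (f x + 2 ^ K * g (f x) x) % 2 ^ K = f x := by
    intro x
    rw [Nat.add_mul_mod_self_left, Nat.mod_eq_of_lt (hlt x)]
  refine ⟨K + k, fun x => f x + 2 ^ K * g (f x) x, by omega, ?_, ?_, ?_, hmod, ?_⟩
  · exact hf.add (continuous_const.mul hcont)
  · intro x
    have h6 := (hgg x).lt x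
    have h7 := hlt x
    rw [pow_add]
    nlinarith
  · intro j hj
    have h8 : j / 2 ^ K < 2 ^ k := by
      rw [Nat.div_lt_iff_lt_mul hpos, mul_comm, ← pow_add]
      exact hj
    have h9 : j % 2 ^ K < 2 ^ K := Nat.mod_lt _ hpos
    obtain ⟨x, hx, hxj⟩ := (hg (j % 2 ^ K) h9).onto (j / 2 ^ K) h8
    have hx' : f x = j % 2 ^ K := hx
    refine ⟨x, ?_⟩
    show f x + 2 ^ K * g (f x) x = j
    rw [hx', hxj]
    exact Nat.mod_add_div j (2 ^ K)
  · intro x x' hxx
    have e1 : f x + 2 ^ K * g (f x) x = f x' + 2 ^ K * g (f x') x' := hxx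
    have e2 : f x = f x' := by
      rw [← hmod x, ← hmod x', e1]
    rw [e2] at e1
    have e3 : g (f x') x = g (f x') x' := by
      have : 2 ^ K * g (f x') x = 2 ^ K * g (f x') x' := by omega
      exact Nat.eq_of_mul_eq_mul_left hpos this
    exact (hgg x').small x e2 x' rfl e3

end cell

theorem bits (y : ℕ → Bool) (k : ℕ) : ∃ n : ℕ, n < 2 ^ k ∧ ∀ i, i < k → n.testBit i = y i := by
  induction k with
  | zero => exact ⟨0, by norm_num, fun i hi => absurd hi (Nat.not_lt_zero i)⟩
  | succ k ih =>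
    obtain ⟨n, hn, hb⟩ := ih
    refine ⟨2 ^ k * (if y k then 1 else 0) + n, ?_, ?_⟩
    · rw [pow_succ]
      by_cases h : y k
      · simp only [h, if_true]
        omega
      · simp only [h]
        simp
        omega
    · intro i hi
      rw [Nat.testBit_two_pow_mul_add _ hn]
      by_cases hik : i < k
      · rw [if_pos hik]
        exact hb i hik
      · have : i = k := by omega
        rw [if_neg hik, this, Nat.sub_self]
        by_cases h : y k
        · simp [h]
        · simp [h]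

theorem bro : BroStmt := by
  classical
  intro X _ _ _ _ _ hX
  let _ : MetricSpace X := TopologicalSpace.metrizableSpaceMetric X
  let S : Type := {p : ℕ × (X → ℕ) // Continuous p.2 ∧ (∀ x, p.2 x < 2 ^ p.1) ∧
    ∀ j, j < 2 ^ p.1 → ∃ x, p.2 x = j}
  have hstep : ∀ (s : S) (n : ℕ), ∃ s' : S, s.1.1 < s'.1.1 ∧
      (∀ x, s'.1.2 x % 2 ^ s.1.1 = s.1.2 x) ∧
      ∀ x x', s'.1.2 x = s'.1.2 x' → dist x x' < 1 / ((n : ℝ) + 1) := by
    intro s n
    obtain ⟨K', f', h1, h2, h3, h4, h5, h6⟩ := step hX s.1.1 s.1.2 s.2.1 s.2.2.1 s.2.2.2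
      (1 / ((n : ℝ) + 1)) (by positivity)
    exact ⟨⟨(K', f'), h2, h3, h4⟩, h1, h5, h6⟩
  choose nx hnx1 hnx2 hnx3 using hstep
  have s0 : S := ⟨(0, fun _ => 0), continuous_const, fun _ => by norm_num, fun j hj => by
    obtain ⟨x⟩ := (inferInstance : Nonempty X)
    have hj' : j < 2 ^ 0 := hj
    rw [pow_zero] at hj'
    have h0 : (0 : ℕ) = j := by omega
    exact ⟨x, h0⟩⟩
  let s : ℕ → S := fun n => Nat.rec s0 (fun n t => nx t n) n
  have hs : ∀ n, s (n + 1) = nx (s n) n := fun n => rfl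
  have hK : ∀ n, (s n).1.1 < (s (n + 1)).1.1 := fun n => by
    rw [hs]
    exact hnx1 _ _
  have hKn : ∀ n, n ≤ (s n).1.1 := by
    intro n
    induction n with
    | zero => exact Nat.zero_le _
    | succ n ih =>
      have := hK n
      omega
  have hKm : Monotone fun n => (s n).1.1 := monotone_nat_of_le_succ fun n => (hK n).le
  have hmod1 : ∀ n x, (s (n + 1)).1.2 x % 2 ^ (s n).1.1 = (s n).1.2 x := fun n x => by
    rw [hs]
    exact hnx2 _ _ x
  have hsm : ∀ n x x', (s (n + 1)).1.2 x = (s (n + 1)).1.2 x' → dist x x' < 1 / ((n : ℝ) + 1) :=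
    fun n x x' h => by
      rw [hs] at h
      exact hnx3 _ _ x x' h
  have hmod : ∀ n m, n ≤ m → ∀ x, (s m).1.2 x % 2 ^ (s n).1.1 = (s n).1.2 x := by
    intro n m hnm
    induction m, hnm using Nat.le_induction with
    | base => exact fun x => Nat.mod_eq_of_lt ((s n).2.2.1 x)
    | succ m hm ih =>
      intro x
      have h1 : 2 ^ (s n).1.1 ∣ 2 ^ (s m).1.1 := pow_dvd_pow 2 (hKm hm)
      rw [← Nat.mod_mod_of_dvd _ h1, hmod1, ih]
  have hbit : ∀ n m, n ≤ m → ∀ x i, i < (s n).1.1 →
      ((s m).1.2 x).testBit i = ((s n).1.2 x).testBit i := by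
    intro n m hnm x i hi
    rw [← hmod n m hnm x, Nat.testBit_mod_two_pow]
    simp [hi]
  let F : X → ℕ → Bool := fun x i => ((s (i + 1)).1.2 x).testBit i
  have hFn : ∀ n x i, i < (s n).1.1 → ((s n).1.2 x).testBit i = F x i := by
    intro n x i hi
    have hi' : i < (s (i + 1)).1.1 := by
      have := hKn (i + 1)
      omega
    rcases le_total n (i + 1) with h | h
    · exact (hbit n (i + 1) h x i hi).symm
    · exact hbit (i + 1) n h x i hi'
  have hFc : Continuous F := by
    refine continuous_pi fun i => ?_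
    have h1 : Continuous fun n : ℕ => n.testBit i := continuous_of_discreteTopology
    exact h1.comp (s (i + 1)).2.1
  have hFi : Function.Injective F := by
    intro x x' hxx
    have h1 : ∀ n, (s n).1.2 x = (s n).1.2 x' := by
      intro n
      apply Nat.eq_of_testBit_eq
      intro i
      by_cases hi : i < (s n).1.1
      · rw [hFn n x i hi, hFn n x' i hi, hxx]
      · have h2 : 2 ^ (s n).1.1 ≤ 2 ^ i := Nat.pow_le_pow_right (by norm_num) (not_lt.mp hi)
        rw [Nat.testBit_lt_two_pow (lt_of_lt_of_le ((s n).2.2.1 x) h2),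
          Nat.testBit_lt_two_pow (lt_of_lt_of_le ((s n).2.2.1 x') h2)]
    by_contra hne
    have hd : 0 < dist x x' := dist_pos.mpr hne
    obtain ⟨n, hn⟩ := exists_nat_one_div_lt hd
    have h3 := hsm n x x' (h1 (n + 1))
    linarith
  have hFs : Function.Surjective F := by
    intro y
    choose j hj1 hj2 using fun n => bits y (s n).1.1
    have hne : (⋂ n, (s n).1.2 ⁻¹' {j n}).Nonempty := by
      refine IsCompact.nonempty_iInter_of_sequence_nonempty_isCompact_isClosed _ ?_ ?_ ?_ ?_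
      · intro n x hx
        have hx' : (s (n + 1)).1.2 x = j (n + 1) := hx
        show (s n).1.2 x = j n
        rw [← hmod1 n x, hx']
        apply Nat.eq_of_testBit_eq
        intro i
        rw [Nat.testBit_mod_two_pow]
        by_cases hi : i < (s n).1.1
        · rw [hj2 n i hi, hj2 (n + 1) i (lt_trans hi (hK n))]
          simp [hi]
        · have h2 : 2 ^ (s n).1.1 ≤ 2 ^ i := Nat.pow_le_pow_right (by norm_num) (not_lt.mp hi)
          rw [Nat.testBit_lt_two_pow (lt_of_lt_of_le (hj1 n) h2)]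
          simp [hi]
      · intro n
        obtain ⟨x, hx⟩ := (s n).2.2.2 (j n) (hj1 n)
        exact ⟨x, hx⟩
      · exact ((isClosed_discrete _).preimage (s 0).2.1).isCompact
      · intro n
        exact (isClosed_discrete _).preimage (s n).2.1
    obtain ⟨x, hx⟩ := hne
    refine ⟨x, ?_⟩
    funext i
    have h1 : (s (i + 1)).1.2 x = j (i + 1) := Set.mem_iInter.mp hx (i + 1)
    show ((s (i + 1)).1.2 x).testBit i = y i
    rw [h1]
    refine hj2 (i + 1) i ?_
    have := hKn (i + 1)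
    omega
  exact ⟨Continuous.homeoOfEquivCompactToT2 (f := Equiv.ofBijective F ⟨hFi, hFs⟩) hFc⟩

end Pool.Agent.CMG.H43
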